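import Pool.Agent.Lib.MP_bdee7b_an.SepMain

open Pool.Agent.Lib.MP_bdee7b_an

theorem Pool.Agent.Results.MP_bdee7b_an.AvgNotAsymp.result :
    ∃ (Y : Type) (_ : MetricSpace Y) (_ : CompactSpace Y) (g : Y ≃ₜ Y),
      AvgShadowing g ∧
      ∀ (X : Type) [MetricSpace X] [CompactSpace X] (f : X → X) (p : X → Y),
        Continuous f → Continuous p → Function.Surjective p → p ∘ f = g ∘ p →
        ¬ AsympAvgShadowing f := by
  obtain ⟨Y, i₁, i₂, g, h₁, h₂⟩ := Sep.exists_avg_not_asymp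
  exact ⟨Y, i₁, i₂, g, h₁, fun X _ _ f p _ hp hs hc hf =>
    h₂ (asympAvgShadowing_factor g.continuous hp hs hc hf)⟩
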