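import Pool.Agent.Lib.MP_bdee7b_an.Main

open Pool.Agent.Lib.MP_bdee7b_an

theorem Pool.Agent.Results.MP_bdee7b_an.Q1AvgShadowing.result
    {X Y : Type*} [MetricSpace X] [CompactSpace X] [MetricSpace Y] [CompactSpace Y]
    (f : X → X) (_hf : Continuous f) (g : Y → Y) (hg : Continuous g)
    (p : X → Y) (hp : Continuous p) (hsurj : Function.Surjective p) (hcomm : p ∘ f = g ∘ p)
    (hX : AvgShadowing f) : AvgShadowing g :=
  avgShadowing_factor hg hp hsurj hcomm hX
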